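import Pool.Agent.W200.MR.Stm

/-!
# S18410, part t_COR: the correlation at the scale `N`
-/

set_option autoImplicit false

open Finset Filter Topology

namespace Pool.Agent.W513.MR

open Pool.Agent.W200.MR

theorem pw_re (s : ℝ) (n : ℕ) : (pw s n).re = Real.cos (s * Real.log n) :=
  Complex.exp_ofReal_mul_I_re _

theorem re_sq (s : ℝ) (n : ℕ) : (pw s n).re ^ 2 = (1 + (pw (2 * s) n).re) / 2 := by
  rw [pw_re, pw_re, mul_assoc, Real.cos_two_mul]
  ring

theorem card_odd (N : ℕ) : (N : ℝ) / 2 ≤ (((Icc 1 N).filter (fun n => n % 2 = 1)).card : ℝ) := by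
  have h1 : (range ((N + 1) / 2)).image (fun k => 2 * k + 1) ⊆
      (Icc 1 N).filter (fun n => n % 2 = 1) := by
    intro n hn
    rw [mem_image] at hn
    obtain ⟨k, hk, rfl⟩ := hn
    rw [mem_range] at hk
    rw [mem_filter, mem_Icc]
    omega
  have h2 := card_le_card h1
  rw [card_image_of_injective _ (by intro a b hab; simp only at hab; omega), card_range] at h2
  have h3 : N ≤ 2 * ((N + 1) / 2) := by omega
  have h4 : (N : ℝ) ≤ 2 * (((N + 1) / 2 : ℕ) : ℝ) := by exact_mod_cast h3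
  have h5 : (((N + 1) / 2 : ℕ) : ℝ) ≤ (((Icc 1 N).filter (fun n => n % 2 = 1)).card : ℝ) := by
    exact_mod_cast h2
  linarith

theorem t_COR : S_AP → S_COR := by
  intro hAP s L hs
  have hs0 : 0 < s := by linarith
  have hlog : ∀ᶠ N : ℕ in atTop, s * Real.log N ≤ (N : ℝ) / 64 := by
    have h1 := Real.isLittleO_log_id_atTop.bound (c := 1 / (64 * s)) (by positivity)
    have h2 := tendsto_natCast_atTop_atTop.eventually h1
    filter_upwards [h2] with N hN
    have h4 : |(N : ℝ)| = N := abs_of_nonneg (Nat.cast_nonneg N)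
    rw [Real.norm_eq_abs, id, Real.norm_eq_abs, h4] at hN
    have h3 := le_trans (le_abs_self _) hN
    calc s * Real.log N ≤ s * (1 / (64 * s) * N) := mul_le_mul_of_nonneg_left h3 hs0.le
      _ = (N : ℝ) / 64 := by field_simp
  have hconst : ∀ᶠ N : ℕ in atTop, 2 + 4 * s + 2 * (L : ℝ) ≤ (N : ℝ) / 64 := by
    have := tendsto_natCast_atTop_atTop.eventually
      (eventually_ge_atTop (64 * (2 + 4 * s + 2 * (L : ℝ))))
    filter_upwards [this] with N hN
    linarith
  obtain ⟨N1, hN1⟩ := eventually_atTop.mp (hlog.and hconst)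
  refine ⟨max N1 1, fun N hN z e τ hτ0 hτ hz he hzn hen => ?_⟩
  obtain ⟨hl, hc⟩ := hN1 N (le_trans (le_max_left _ _) hN)
  have hN1' : 1 ≤ N := le_trans (le_max_right _ _) hN
  have hNr : (1 : ℝ) ≤ N := by exact_mod_cast hN1'
  obtain ⟨O, hO⟩ : ∃ O, O = (Icc 1 N).filter (fun n => n % 2 = 1) := ⟨_, rfl⟩
  rw [← hO]
  -- the pointwise bound
  have hpt : ∀ n ∈ O, (1 + (pw (2 * s) n).re) / 2 - τ - (if n < L then 2 else 0) ≤
      (z n * (e n : ℂ)).re := by
    intro n hn
    rw [hO, mem_filter, mem_Icc] at hn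
    rw [Complex.re_mul_ofReal, ← re_sq]
    have hw1 : |(pw s n).re| ≤ 1 := by rw [pw_re]; exact Real.abs_cos_le_one _
    have hw2 := abs_le.mp hw1
    by_cases hL : n < L
    · rw [if_pos hL]
      have hz1 : |(z n).re| ≤ 1 := (Complex.abs_re_le_norm _).trans (hz n)
      have hz2 := abs_le.mp hz1
      have : -1 ≤ (z n).re * e n := by
        rcases he n with h | h <;> rw [h] <;> linarith
      nlinarith
    · rw [if_neg hL, sub_zero]
      push Not at hL
      have h1 := hzn n hL hn.1.2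
      have h2 : |(z n).re - (pw s n).re| ≤ τ := by
        rw [← Complex.sub_re]
        exact (Complex.abs_re_le_norm _).trans h1
      have h3 := abs_le.mp h2
      rw [hen n hL hn.1.2]
      split_ifs with h4
      · nlinarith
      · nlinarith
  -- the main sum
  have hap := hAP (2 * s) 2 1 N (by norm_num) hNr
  rw [Nat.floor_natCast] at hap
  have hSA : ‖SA (2 * s) 2 1 N‖ ≤ (N : ℝ) / 8 + (4 + 2 * s * (4 + Real.log N)) := by
    have h1 : ‖((N : ℝ) : ℂ) * Complex.exp (((2 * s * Real.log N : ℝ) : ℂ) * Complex.I) /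
        (((2 : ℕ) : ℂ) * (1 + ((2 * s : ℝ) : ℂ) * Complex.I))‖ ≤ (N : ℝ) / 8 := by
      rw [norm_div, norm_mul, norm_mul, Complex.norm_exp_ofReal_mul_I, mul_one, Complex.norm_real,
        Real.norm_of_nonneg (by positivity)]
      have h2 : (4 : ℝ) ≤ ‖(1 : ℂ) + ((2 * s : ℝ) : ℂ) * Complex.I‖ := by
        refine le_trans ?_ (Complex.abs_im_le_norm _)
        simp only [Complex.add_im, Complex.one_im, Complex.mul_im, Complex.ofReal_re,
          Complex.I_im, mul_one, Complex.ofReal_im, Complex.I_re, mul_zero, add_zero, zero_add]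
        rw [abs_of_pos (by positivity)]
        linarith
      have h3 : ‖((2 : ℕ) : ℂ)‖ = 2 := by simp
      rw [h3]
      apply div_le_div_of_nonneg_left (by positivity) (by norm_num)
      linarith
    have h4 : |2 * s| = 2 * s := abs_of_pos (by positivity)
    rw [h4] at hap
    calc ‖SA (2 * s) 2 1 N‖ = ‖(SA (2 * s) 2 1 N -
          ((N : ℝ) : ℂ) * Complex.exp (((2 * s * Real.log N : ℝ) : ℂ) * Complex.I) /
        (((2 : ℕ) : ℂ) * (1 + ((2 * s : ℝ) : ℂ) * Complex.I))) +
        ((N : ℝ) : ℂ) * Complex.exp (((2 * s * Real.log N : ℝ) : ℂ) * Complex.I) /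
        (((2 : ℕ) : ℂ) * (1 + ((2 * s : ℝ) : ℂ) * Complex.I))‖ := by rw [sub_add_cancel]
      _ ≤ (4 + 2 * s * (((2 : ℕ) : ℝ) + 2 + Real.log N)) + (N : ℝ) / 8 :=
          (norm_add_le _ _).trans (add_le_add hap h1)
      _ = (N : ℝ) / 8 + (4 + 2 * s * (4 + Real.log N)) := by push_cast; ring
  have hre : ∑ n ∈ O, (pw (2 * s) n).re = (SA (2 * s) 2 1 N).re := by
    unfold SA AP
    rw [Complex.re_sum, hO]
  have hre2 : -((N : ℝ) / 8 + (4 + 2 * s * (4 + Real.log N))) ≤
      ∑ n ∈ O, (pw (2 * s) n).re := by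
    rw [hre]
    have := abs_le.mp ((Complex.abs_re_le_norm _).trans hSA)
    exact this.1
  have hcard : (N : ℝ) / 2 ≤ (O.card : ℝ) := by rw [hO]; exact card_odd N
  have hsmall : ∑ n ∈ O, (if n < L then (2 : ℝ) else 0) ≤ 2 * L := by
    rw [← sum_filter, sum_const, nsmul_eq_mul]
    have h1 : O.filter (fun n => n < L) ⊆ range L := by
      intro n hn
      rw [mem_filter] at hn
      exact mem_range.mpr hn.2
    have h2 : ((O.filter (fun n => n < L)).card : ℝ) ≤ L := by
      have := card_le_card h1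
      rw [card_range] at this
      exact_mod_cast this
    linarith
  have hsum := sum_le_sum hpt
  rw [sum_sub_distrib, sum_sub_distrib, sum_const, nsmul_eq_mul, ← sum_div, sum_add_distrib,
    sum_const, nsmul_eq_mul, mul_one] at hsum
  have hfin : (O.card : ℝ) * (1 / 2 - τ) ≥ (N : ℝ) / 2 * (1 / 2 - 1 / 32) := by
    apply mul_le_mul hcard (by linarith) (by norm_num) (by positivity)
  nlinarith

end Pool.Agent.W513.MR
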